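import Pool.Agent.ASE.Stmts5
import Pool.Agent.Helper50_PP.Ffa
import Pool.Agent.Helper9_ASO.PPC

/-!
# Squad ASE, row DVS: the deviations cancel
-/

set_option autoImplicit false

open scoped BigOperators

noncomputable section

namespace Pool.Agent.PP.SE.H1

open Pool.Agent.Helper51_AWC Pool.Agent.Helper79_WRA Pool.Agent.PP Pool.Agent.PP.KF
open Pool.Agent.PP.K9 Pool.Agent.PP.K9.H97 Pool.Agent.PP.H75 Pool.Agent.PP.T3 Pool.Agent.PP.SO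
open Pool.Agent.PP.SD

attribute [local instance] Ideal.Quotient.field

section ring

variable {ℓ : ℕ} [hℓ : Fact ℓ.Prime] {M : Ideal (integralClosure ℤ ℂ)} [M.IsMaximal]

theorem nat_inv_RM (hM : (ℓ : integralClosure ℤ ℂ) ∈ M) {n : ℕ} (hn : ¬ ℓ ∣ n) :
    (n : ℂ)⁻¹ ∈ RM M := by
  have hch : CharP (FF M) ℓ := (H50.fld ℓ Fact.out M hM).char
  have h2 : rr M (n : ℂ) ≠ 0 := by
    rw [(rr_nat n).2]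
    intro h
    exact hn ((CharP.cast_eq_zero_iff (FF M) ℓ n).1 h)
  exact (inv_RM (rr_nat n).1 h2).1

/-- rational numbers with denominator prime to `ℓ` are in the local ring -/
theorem rl_RM (hM : (ℓ : integralClosure ℤ ℂ) ∈ M) {q : ℚ} (hq : q ∈ SOR.Rl ℓ) :
    (q : ℂ) ∈ RM M := by
  have h1 : ¬ ℓ ∣ q.den := hq
  have h4 : (q : ℂ) = (q.num : ℂ) * (q.den : ℂ)⁻¹ := by
    rw [← div_eq_mul_inv]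
    exact Rat.cast_def q
  rw [h4]
  exact (RM M).mul_mem (rr_int q.num).1 (nat_inv_RM hM h1)

/-- a product of `Λ`, a number of `ℓ Rl` and a number of `12 ℓ⁻² ℤ` -/
theorem term_RM (hM : (ℓ : integralClosure ℤ ℂ) ∈ M) {L : ℂ} (hL : L / ℓ ∈ RM M) {q : ℚ}
    (hq : q ∈ SOR.Rl ℓ) (z : ℤ) :
    L * (((ℓ * q) * (-(12 / (ℓ : ℚ) ^ 2) * (z : ℚ)) : ℚ) : ℂ) ∈ RM M := by
  have h0 : (ℓ : ℂ) ≠ 0 := Nat.cast_ne_zero.2 hℓ.out.ne_zero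
  have h1 : L * (((ℓ * q) * (-(12 / (ℓ : ℚ) ^ 2) * (z : ℚ)) : ℚ) : ℂ) =
      L / ℓ * ((q : ℂ) * (((-12 * z : ℤ)) : ℂ)) := by
    push_cast
    field_simp
  rw [h1]
  exact (RM M).mul_mem hL ((RM M).mul_mem (rl_RM hM hq) (rr_int _).1)

theorem term_RM' (hM : (ℓ : integralClosure ℤ ℂ) ∈ M) {L : ℂ} (hL : L / ℓ ∈ RM M) {z : ℤ}
    (hz : (ℓ : ℤ) ∣ z) :
    L * ((-(12 / (ℓ : ℚ) ^ 2) * (z : ℚ) : ℚ) : ℂ) ∈ RM M := by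
  obtain ⟨k, rfl⟩ := hz
  have h1 := term_RM hM hL (SOR.Rl ℓ).one_mem k
  have h2 : ((ℓ * 1) * (-(12 / (ℓ : ℚ) ^ 2) * (k : ℚ)) : ℚ) =
      -(12 / (ℓ : ℚ) ^ 2) * (((ℓ : ℤ) * k : ℤ) : ℚ) := by
    push_cast
    ring
  rwa [h2] at h1

end ring

section vals

variable {V₀ : Type} [CommGroup V₀] {ℓ : ℕ} {ρ₁ ρ₂ : V₀ → ZMod ℓ} {x₁ x₂ : V₀ → ℤ}

/-- the integer in `BrF` -/
def zF (x₁ x₂ : V₀ → ℤ) (kc kd κ : V₀) (σ : MulAut V₀) (ζ : V₀) : ℤ :=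
  (x₁ kc⁻¹ - x₁ κ⁻¹) * x₂ (σ⁻¹ ζ) + (x₂ kd⁻¹ - x₂ (σ⁻¹ κ)⁻¹) * x₁ ζ

theorem brF_eq (kc kd κ : V₀) (σ : MulAut V₀) (ζ : V₀) :
    BrF ℓ x₁ x₂ kc kd κ σ ζ = -(12 / (ℓ : ℚ) ^ 2) * (zF x₁ x₂ kc kd κ σ ζ : ℚ) := rfl

theorem hm_one (h : Hm ρ₁) : ρ₁ 1 = 0 := by
  have h1 := h 1 1
  rw [mul_one] at h1
  exact left_eq_add.1 h1

theorem hm_inv (h : Hm ρ₁) (v : V₀) : ρ₁ v⁻¹ = -ρ₁ v := by
  have h1 := h v v⁻¹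
  rw [mul_inv_cancel, hm_one h] at h1
  exact eq_neg_of_add_eq_zero_right h1.symm

theorem zF_mod (h₁ : Hm ρ₁) (h₂ : Hm ρ₂) (hx₁ : Lf ρ₁ x₁) (hx₂ : Lf ρ₂ x₂) (kc kd κ : V₀)
    (σ : MulAut V₀) (ζ : V₀) : (zF x₁ x₂ kc kd κ σ ζ : ZMod ℓ) =
      (ρ₁ κ - ρ₁ kc) * ρ₂ (σ⁻¹ ζ) + (ρ₂ (σ⁻¹ κ) - ρ₂ kd) * ρ₁ ζ := by
  unfold zF
  push_cast
  rw [(hx₁ kc⁻¹).1, (hx₁ κ⁻¹).1, (hx₂ (σ⁻¹ ζ)).1, (hx₂ kd⁻¹).1, (hx₂ (σ⁻¹ κ)⁻¹).1, (hx₁ ζ).1,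
    hm_inv h₁, hm_inv h₁, hm_inv h₂, hm_inv h₂]
  ring

/-- the sum of the four integers -/
def zT (x₁ x₂ : V₀ → ℤ) (P : V₀ → V₀) (c d : V₀) (ζ : V₀) (σ : MulAut V₀) : ℤ :=
  zF x₁ x₂ c d (c * σ d) σ ζ + zF x₁ x₂ c d (P (c * σ d)) σ ζ
    - zF x₁ x₂ (P c) d (P (c * σ d)) σ ζ - zF x₁ x₂ c (σ⁻¹ (P (σ d))) (P (c * σ d)) σ ζ

theorem zT_mod (h₁ : Hm ρ₁) (h₂ : Hm ρ₂) (hx₁ : Lf ρ₁ x₁) (hx₂ : Lf ρ₂ x₂) {P : V₀ → V₀}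
    (hP : ∀ v w, P (v * w) = P v * P w) (c d ζ : V₀) (σ : MulAut V₀) :
    (zT x₁ x₂ P c d ζ σ : ZMod ℓ) =
      ρ₁ (σ d * (P (σ d))⁻¹) * ρ₂ (σ⁻¹ ζ) + ρ₂ (σ⁻¹ (c * (P c)⁻¹)) * ρ₁ ζ := by
  unfold zT
  rw [Int.cast_sub, Int.cast_sub, Int.cast_add, zF_mod h₁ h₂ hx₁ hx₂, zF_mod h₁ h₂ hx₁ hx₂,
    zF_mod h₁ h₂ hx₁ hx₂, zF_mod h₁ h₂ hx₁ hx₂, hP, h₁ c, h₁ (P c), h₁ (σ d), map_mul, map_mul,
    map_mul, h₂ (σ⁻¹ c), h₂ (σ⁻¹ (P c)), h₂ (σ⁻¹ c), hm_inv h₁, map_inv, hm_inv h₂]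
  have h3 : σ⁻¹ (σ d) = d := σ.symm_apply_apply d
  rw [h3]
  ring

theorem hm_prod (h : Hm ρ₁) {ι : Type} (s : Finset ι) (f : ι → V₀) :
    ρ₁ (∏ i ∈ s, f i) = ∑ i ∈ s, ρ₁ (f i) := by
  classical
  induction s using Finset.induction_on with
  | empty => rw [Finset.prod_empty, Finset.sum_empty, hm_one h]
  | insert a s ha ih => rw [Finset.prod_insert ha, Finset.sum_insert ha, h, ih]

end vals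

section avg

variable {V₀ : Type} [CommGroup V₀]

/-- averaging over a subgroup -/
theorem avg_RM {ℓ : ℕ} [hℓ : Fact ℓ.Prime] {M : Ideal (integralClosure ℤ ℂ)} [M.IsMaximal]
    (hM : (ℓ : integralClosure ℤ ℂ) ∈ M) {E N : Subgroup (MulAut V₀)} (hN : N ≤ E)
    [Fintype E] [Fintype N] (hn : ¬ ℓ ∣ Nat.card N) (f : MulAut V₀ → ℂ)
    (h : ∀ σ : E, ∑ π : N, f ((π : MulAut V₀) * σ) ∈ RM M) :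
    ∑ σ : E, f σ ∈ RM M := by
  have h1 : ∑ π : N, ∑ σ : E, f ((π : MulAut V₀) * σ) = (Nat.card N : ℂ) * ∑ σ : E, f σ := by
    have h2 : ∀ π : N, ∑ σ : E, f ((π : MulAut V₀) * σ) = ∑ σ : E, f σ := by
      intro π
      exact Fintype.sum_equiv (Equiv.mulLeft (⟨π, hN π.2⟩ : E)) _ _ (fun σ => rfl)
    rw [Finset.sum_congr rfl (fun π _ => h2 π), Finset.sum_const, Finset.card_univ,
      nsmul_eq_mul, Nat.card_eq_fintype_card]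
  rw [Finset.sum_comm] at h1
  have h3 : (Nat.card N : ℂ) ≠ 0 := by
    intro h4
    rw [Nat.cast_eq_zero] at h4
    exact hn (h4 ▸ dvd_zero ℓ)
  have h5 : ∑ σ : E, f σ = (Nat.card N : ℂ)⁻¹ * ∑ σ : E, ∑ π : N, f ((π : MulAut V₀) * σ) := by
    rw [h1, ← mul_assoc, inv_mul_cancel₀ h3, one_mul]
  rw [h5]
  exact (RM M).mul_mem (nat_inv_RM hM hn) (sum_mem fun σ _ => h σ)

end avg

/-- the sum over a coset is divisible by `ℓ` -/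
theorem coset_dvd {ℓ : ℕ} [hℓ : Fact ℓ.Prime] {V₀ : Type} [CommGroup V₀] [Finite V₀]
    {ρ₁ ρ₂ : V₀ → ZMod ℓ} {x₁ x₂ : V₀ → ℤ} (h₁ : Hm ρ₁) (h₂ : Hm ρ₂) (hx₁ : Lf ρ₁ x₁)
    (hx₂ : Lf ρ₂ x₂) {P : V₀ → V₀} (hP : ∀ v w, P (v * w) = P v * P w)
    (N : Subgroup (MulAut V₀)) [Fintype N] (a : Subgroup V₀) (hPa : ∀ v, P v ∈ a)
    (hPN : ∀ π ∈ N, ∀ v, P (π v) = P v) (hNa : ∀ π ∈ N, ∀ v ∈ a, π v = v)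
    (hprod : ∀ v, ∏ π : N, (π : MulAut V₀) (v * (P v)⁻¹) = 1)
    (c d ζ : V₀) (hζ : ζ ∈ a) (σ : MulAut V₀) :
    (ℓ : ℤ) ∣ ∑ π : N, zT x₁ x₂ P c d ζ ((π : MulAut V₀) * σ) := by
  rw [← ZMod.intCast_zmod_eq_zero_iff_dvd]
  rw [Int.cast_sum]
  have key : ∀ π : N, ((zT x₁ x₂ P c d ζ ((π : MulAut V₀) * σ) : ℤ) : ZMod ℓ) =
      ρ₁ ((π : MulAut V₀) (σ d * (P (σ d))⁻¹)) * ρ₂ (σ⁻¹ ζ) +
      ρ₂ (σ⁻¹ (((π⁻¹ : N) : MulAut V₀) (c * (P c)⁻¹))) * ρ₁ ζ := by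
    intro π
    rw [zT_mod h₁ h₂ hx₁ hx₂ hP]
    have e1 : ((π : MulAut V₀) * σ) d = (π : MulAut V₀) (σ d) := rfl
    have e2 : ((π : MulAut V₀) * σ)⁻¹ ζ = σ⁻¹ ζ := by
      rw [mul_inv_rev, MulAut.mul_apply]
      have : (π : MulAut V₀)⁻¹ ζ = ζ := hNa _ (inv_mem π.2) ζ hζ
      rw [this]
    have e3 : ((π : MulAut V₀) * σ)⁻¹ (c * (P c)⁻¹) =
        σ⁻¹ (((π⁻¹ : N) : MulAut V₀) (c * (P c)⁻¹)) := by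
      rw [mul_inv_rev, MulAut.mul_apply]
      rfl
    have e4 : (π : MulAut V₀) (σ d) * (P ((π : MulAut V₀) (σ d)))⁻¹ =
        (π : MulAut V₀) (σ d * (P (σ d))⁻¹) := by
      rw [hPN π π.2, map_mul, map_inv, hNa π π.2 _ (hPa _)]
    rw [e1, e2, e3, e4]
  rw [Finset.sum_congr rfl (fun π _ => key π), Finset.sum_add_distrib, ← Finset.sum_mul,
    ← Finset.sum_mul]
  have k1 : ∑ π : N, ρ₁ ((π : MulAut V₀) (σ d * (P (σ d))⁻¹)) = 0 := by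
    rw [← hm_prod h₁, hprod, hm_one h₁]
  have k2 : ∑ π : N, ρ₂ (σ⁻¹ (((π⁻¹ : N) : MulAut V₀) (c * (P c)⁻¹))) = 0 := by
    rw [← hm_prod h₂, ← map_prod]
    have : ∏ π : N, ((π⁻¹ : N) : MulAut V₀) (c * (P c)⁻¹) =
        ∏ π : N, (π : MulAut V₀) (c * (P c)⁻¹) :=
      Fintype.prod_equiv (Equiv.inv N) _ _ (fun π => rfl)
    rw [this, hprod, map_one, hm_one h₂]
  rw [k1, k2, zero_mul, zero_mul, add_zero]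

section cs

variable {ℓ : ℕ} [hℓ : Fact ℓ.Prime] {V₀ : Type} [CommGroup V₀]

/-- `1 + ℓ Rl` -/
def On (ℓ : ℕ) [Fact ℓ.Prime] (u : ℚ) : Prop := ∃ q ∈ SOR.Rl ℓ, u = 1 + ℓ * q

theorem On.one : On ℓ 1 := ⟨0, (SOR.Rl ℓ).zero_mem, by ring⟩

theorem On.mul {u v : ℚ} (hu : On ℓ u) (hv : On ℓ v) : On ℓ (u * v) := by
  obtain ⟨q, hq, rfl⟩ := hu
  obtain ⟨r, hr, rfl⟩ := hv
  refine ⟨q + r + ℓ * (q * r), ?_, by ring⟩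
  exact add_mem (add_mem hq hr) (mul_mem (SO.H9P.l_mem ℓ) (mul_mem hq hr))

theorem On.inv {u : ℚ} (hu : On ℓ u) : On ℓ u⁻¹ := by
  obtain ⟨q, hq, rfl⟩ := hu
  obtain ⟨h1, h2⟩ := SO.H9P.unit_of ℓ hq rfl
  refine ⟨-(q * (1 + ℓ * q)⁻¹), neg_mem (mul_mem hq h2), ?_⟩
  field_simp
  ring

theorem On.div {u v : ℚ} (hu : On ℓ u) (hv : On ℓ v) : On ℓ (u / v) := by
  rw [div_eq_mul_inv]
  exact hu.mul hv.inv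

theorem ux_on {U : Subgroup V₀ → ℚ} {a : Subgroup V₀} (h : On ℓ (U a)) (c : V₀) :
    On ℓ (ux U a c) := by
  unfold ux
  split_ifs
  · exact On.one
  · exact h

theorem cS_on {U : Subgroup V₀ → ℚ} {a : Subgroup V₀} (h : On ℓ (U a)) (c d : V₀)
    (σ : MulAut V₀) : On ℓ (cS U c d σ a) :=
  ((ux_on h _).mul (ux_on h _)).div (ux_on h _)

variable {M : Ideal (integralClosure ℤ ℂ)} [M.IsMaximal]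

theorem on_RM (hM : (ℓ : integralClosure ℤ ℂ) ∈ M) {L : ℂ} (hL : L / ℓ ∈ RM M) {u : ℚ}
    (hu : On ℓ u) (z : ℤ) :
    L * (((u - 1) * (-(12 / (ℓ : ℚ) ^ 2) * (z : ℚ)) : ℚ) : ℂ) ∈ RM M := by
  obtain ⟨q, hq, rfl⟩ := hu
  have h := term_RM hM hL hq z
  have h2 : (1 + ℓ * q : ℚ) - 1 = ℓ * q := by ring
  rw [h2]
  exact h

end cs

section core

variable {ℓ : ℕ} [hℓ : Fact ℓ.Prime] {V₀ : Type} [CommGroup V₀]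
  {M : Ideal (integralClosure ℤ ℂ)} [M.IsMaximal]

open Classical in
/-- the sum of the terms of `(σ, a, ζ)` -/
def tm (Λ : Subgroup V₀ → V₀ → V₀ → ℂ) (U : Subgroup V₀ → ℚ) (x₁ x₂ : V₀ → ℤ) (ℓ : ℕ)
    (E₀ : Subgroup (MulAut V₀)) (c d : V₀) (σ : MulAut V₀) (a : Subgroup V₀) (ζ : V₀) : ℂ :=
  (if c * σ d ∉ a then Λ a (pr ℓ E₀ a (c * σ d)) ζ * ((BrF ℓ x₁ x₂ c d (c * σ d) σ ζ -
        cS U c d σ a * BrF ℓ x₁ x₂ c d (pr ℓ E₀ a (c * σ d)) σ ζ : ℚ) : ℂ) else 0) +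
  (if c ∉ a then Λ a (pr ℓ E₀ a (c * σ d)) ζ * ((ux U a (σ d) *
        (BrF ℓ x₁ x₂ c d (pr ℓ E₀ a (c * σ d)) σ ζ -
          BrF ℓ x₁ x₂ (pr ℓ E₀ a c) d (pr ℓ E₀ a (c * σ d)) σ ζ) : ℚ) : ℂ) else 0) +
  (if σ d ∉ a then Λ a (pr ℓ E₀ a (c * σ d)) ζ * ((ux U a c *
        (BrF ℓ x₁ x₂ c d (pr ℓ E₀ a (c * σ d)) σ ζ -
          BrF ℓ x₁ x₂ c (σ⁻¹ (pr ℓ E₀ a (σ d))) (pr ℓ E₀ a (c * σ d)) σ ζ) : ℚ) : ℂ) else 0)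

open Classical in
theorem tm_mod (hM : (ℓ : integralClosure ℤ ℂ) ∈ M) (Λ : Subgroup V₀ → V₀ → V₀ → ℂ)
    (U : Subgroup V₀ → ℚ) (x₁ x₂ : V₀ → ℤ) (E₀ : Subgroup (MulAut V₀)) (c d : V₀)
    (σ : MulAut V₀) (a : Subgroup V₀) (ζ : V₀) (hU : On ℓ (U a))
    (hP1 : ∀ v ∈ a, pr ℓ E₀ a v = v) (hΛ : Λ a (pr ℓ E₀ a (c * σ d)) ζ / ℓ ∈ RM M) :
    tm Λ U x₁ x₂ ℓ E₀ c d σ a ζ - Λ a (pr ℓ E₀ a (c * σ d)) ζ *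
      ((-(12 / (ℓ : ℚ) ^ 2) * (zT x₁ x₂ (pr ℓ E₀ a) c d ζ σ : ℚ) : ℚ) : ℂ) ∈ RM M := by
  obtain ⟨L, hL⟩ : ∃ L : ℂ, L = Λ a (pr ℓ E₀ a (c * σ d)) ζ := ⟨_, rfl⟩
  rw [← hL] at hΛ
  obtain ⟨u₁, hu₁⟩ : ∃ u : ℚ, u = cS U c d σ a := ⟨_, rfl⟩
  obtain ⟨u₂, hu₂⟩ : ∃ u : ℚ, u = ux U a (σ d) := ⟨_, rfl⟩
  obtain ⟨u₃, hu₃⟩ : ∃ u : ℚ, u = ux U a c := ⟨_, rfl⟩
  have ho₁ : On ℓ u₁ := by rw [hu₁]; exact cS_on hU c d σ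
  have ho₂ : On ℓ u₂ := by rw [hu₂]; exact ux_on hU _
  have ho₃ : On ℓ u₃ := by rw [hu₃]; exact ux_on hU _
  obtain ⟨z₁, hz₁⟩ : ∃ z : ℤ, z = zF x₁ x₂ c d (c * σ d) σ ζ := ⟨_, rfl⟩
  obtain ⟨z₂, hz₂⟩ : ∃ z : ℤ, z = zF x₁ x₂ c d (pr ℓ E₀ a (c * σ d)) σ ζ := ⟨_, rfl⟩
  obtain ⟨z₃, hz₃⟩ : ∃ z : ℤ, z = zF x₁ x₂ (pr ℓ E₀ a c) d (pr ℓ E₀ a (c * σ d)) σ ζ :=
    ⟨_, rfl⟩
  obtain ⟨z₄, hz₄⟩ : ∃ z : ℤ, z = zF x₁ x₂ c (σ⁻¹ (pr ℓ E₀ a (σ d)))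
    (pr ℓ E₀ a (c * σ d)) σ ζ := ⟨_, rfl⟩
  have h1 : (if c * σ d ∉ a then L * (((-(12 / (ℓ : ℚ) ^ 2) * (z₁ : ℚ)) -
      u₁ * (-(12 / (ℓ : ℚ) ^ 2) * (z₂ : ℚ)) : ℚ) : ℂ) else 0) -
      L * ((-(12 / (ℓ : ℚ) ^ 2) * ((z₁ - z₂ : ℤ) : ℚ) : ℚ) : ℂ) ∈ RM M := by
    by_cases h : c * σ d ∉ a
    · rw [if_pos h]
      have h2 := on_RM hM hΛ ho₁ (-z₂)
      have h3 : L * (((-(12 / (ℓ : ℚ) ^ 2) * (z₁ : ℚ)) -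
          u₁ * (-(12 / (ℓ : ℚ) ^ 2) * (z₂ : ℚ)) : ℚ) : ℂ) -
          L * ((-(12 / (ℓ : ℚ) ^ 2) * ((z₁ - z₂ : ℤ) : ℚ) : ℚ) : ℂ) =
          L * (((u₁ - 1) * (-(12 / (ℓ : ℚ) ^ 2) * ((-z₂ : ℤ) : ℚ)) : ℚ) : ℂ) := by
        rw [← mul_sub, ← Rat.cast_sub]
        congr 2
        push_cast
        ring
      rw [h3]
      exact h2
    · rw [if_neg h]
      have h2 : z₁ = z₂ := by
        rw [hz₁, hz₂, hP1 _ (not_not.1 h)]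
      rw [h2]
      simp
  have h2 : (if c ∉ a then L * ((u₂ * ((-(12 / (ℓ : ℚ) ^ 2) * (z₂ : ℚ)) -
      (-(12 / (ℓ : ℚ) ^ 2) * (z₃ : ℚ))) : ℚ) : ℂ) else 0) -
      L * ((-(12 / (ℓ : ℚ) ^ 2) * ((z₂ - z₃ : ℤ) : ℚ) : ℚ) : ℂ) ∈ RM M := by
    by_cases h : c ∉ a
    · rw [if_pos h]
      have h2 := on_RM hM hΛ ho₂ (z₂ - z₃)
      have h3 : L * ((u₂ * ((-(12 / (ℓ : ℚ) ^ 2) * (z₂ : ℚ)) -
          (-(12 / (ℓ : ℚ) ^ 2) * (z₃ : ℚ))) : ℚ) : ℂ) -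
          L * ((-(12 / (ℓ : ℚ) ^ 2) * ((z₂ - z₃ : ℤ) : ℚ) : ℚ) : ℂ) =
          L * (((u₂ - 1) * (-(12 / (ℓ : ℚ) ^ 2) * ((z₂ - z₃ : ℤ) : ℚ)) : ℚ) : ℂ) := by
        rw [← mul_sub, ← Rat.cast_sub]
        congr 2
        push_cast
        ring
      rw [h3]
      exact h2
    · rw [if_neg h]
      have h2 : z₂ = z₃ := by
        rw [hz₂, hz₃, hP1 _ (not_not.1 h)]
      rw [h2]
      simp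
  have h3 : (if σ d ∉ a then L * ((u₃ * ((-(12 / (ℓ : ℚ) ^ 2) * (z₂ : ℚ)) -
      (-(12 / (ℓ : ℚ) ^ 2) * (z₄ : ℚ))) : ℚ) : ℂ) else 0) -
      L * ((-(12 / (ℓ : ℚ) ^ 2) * ((z₂ - z₄ : ℤ) : ℚ) : ℚ) : ℂ) ∈ RM M := by
    by_cases h : σ d ∉ a
    · rw [if_pos h]
      have h2 := on_RM hM hΛ ho₃ (z₂ - z₄)
      have h3 : L * ((u₃ * ((-(12 / (ℓ : ℚ) ^ 2) * (z₂ : ℚ)) -
          (-(12 / (ℓ : ℚ) ^ 2) * (z₄ : ℚ))) : ℚ) : ℂ) -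
          L * ((-(12 / (ℓ : ℚ) ^ 2) * ((z₂ - z₄ : ℤ) : ℚ) : ℚ) : ℂ) =
          L * (((u₃ - 1) * (-(12 / (ℓ : ℚ) ^ 2) * ((z₂ - z₄ : ℤ) : ℚ)) : ℚ) : ℂ) := by
        rw [← mul_sub, ← Rat.cast_sub]
        congr 2
        push_cast
        ring
      rw [h3]
      exact h2
    · rw [if_neg h]
      have h2 : z₂ = z₄ := by
        rw [hz₂, hz₄, hP1 _ (not_not.1 h)]
        have h3 : σ⁻¹ (σ d) = d := σ.symm_apply_apply d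
        rw [h3]
      rw [h2]
      simp
  have h4 := (RM M).add_mem ((RM M).add_mem h1 h2) h3
  have h5 : ((-(12 / (ℓ : ℚ) ^ 2) * (zT x₁ x₂ (pr ℓ E₀ a) c d ζ σ : ℚ) : ℚ)) =
      (-(12 / (ℓ : ℚ) ^ 2) * ((z₁ - z₂ : ℤ) : ℚ)) + (-(12 / (ℓ : ℚ) ^ 2) * ((z₂ - z₃ : ℤ) : ℚ)) +
      (-(12 / (ℓ : ℚ) ^ 2) * ((z₂ - z₄ : ℤ) : ℚ)) := by
    unfold zT
    rw [← hz₁, ← hz₂, ← hz₃, ← hz₄]
    push_cast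
    ring
  have h6 : tm Λ U x₁ x₂ ℓ E₀ c d σ a ζ =
      (if c * σ d ∉ a then L * (((-(12 / (ℓ : ℚ) ^ 2) * (z₁ : ℚ)) -
      u₁ * (-(12 / (ℓ : ℚ) ^ 2) * (z₂ : ℚ)) : ℚ) : ℂ) else 0) +
      (if c ∉ a then L * ((u₂ * ((-(12 / (ℓ : ℚ) ^ 2) * (z₂ : ℚ)) -
      (-(12 / (ℓ : ℚ) ^ 2) * (z₃ : ℚ))) : ℚ) : ℂ) else 0) +
      (if σ d ∉ a then L * ((u₃ * ((-(12 / (ℓ : ℚ) ^ 2) * (z₂ : ℚ)) -
      (-(12 / (ℓ : ℚ) ^ 2) * (z₄ : ℚ))) : ℚ) : ℂ) else 0) := by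
    unfold tm
    rw [brF_eq, brF_eq, brF_eq, brF_eq, ← hz₁, ← hz₂, ← hz₃, ← hz₄, ← hu₁, ← hu₂, ← hu₃, ← hL]
  rw [h5, h6, ← hL]
  have h7 : ∀ x y z x' y' z' : ℂ, x + y + z - (x' + y' + z') = x - x' + (y - y') + (z - z') := by
    intros
    ring
  rw [Rat.cast_add, Rat.cast_add, mul_add, mul_add, h7]
  exact h4

/-- the sum over `σ` of the terms of `a`, `ζ` -/
theorem core (prb : PrbStmt) (hM : (ℓ : integralClosure ℤ ℂ) ∈ M) [Finite V₀]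
    {E₀ : Subgroup (MulAut V₀)} (hE : Fq ℓ V₀ E₀) {U : Subgroup V₀ → ℚ} {ρ₁ ρ₂ : V₀ → ZMod ℓ}
    {x₁ x₂ : V₀ → ℤ} (h₁ : Hm ρ₁) (h₂ : Hm ρ₂) (hx₁ : Lf ρ₁ x₁) (hx₂ : Lf ρ₂ x₂)
    {Λ : Subgroup V₀ → V₀ → V₀ → ℂ} (c d : V₀) {a : Subgroup V₀} (ha : a ∈ RL ℓ E₀)
    (hU : On ℓ (U a)) (hΛ : ∀ κ ∈ a, ∀ ζ, Λ a κ ζ / ℓ ∈ RM M) {ζ : V₀} (hζ : ζ ∈ a)
    [Fintype E₀] : ∑ σ : E₀, tm Λ U x₁ x₂ ℓ E₀ c d σ a ζ ∈ RM M := by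
  classical
  obtain ⟨p1, ⟨-, p2, -⟩, p3, -, p5, -, -, ⟨-, -, p8⟩, -, p10⟩ := prb ℓ V₀ E₀ hE a
  have p5 := p5 ha
  have hfN : Finite (St E₀ a) := inferInstance
  have : Fintype (St E₀ a) := Fintype.ofFinite _
  have hP : ∀ v w, pr ℓ E₀ a (v * w) = pr ℓ E₀ a v * pr ℓ E₀ a w := p2
  have hPinv : ∀ v, pr ℓ E₀ a v⁻¹ = (pr ℓ E₀ a v)⁻¹ := by
    intro v
    apply eq_inv_of_mul_eq_one_left
    rw [← hP, inv_mul_cancel, p1 1 a.one_mem]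
  have hprod : ∀ v, ∏ π : St E₀ a, (π : MulAut V₀) (v * (pr ℓ E₀ a v)⁻¹) = 1 := by
    intro v
    rw [← finprod_eq_prod_of_fintype, p10, hP, hPinv, p1 _ (p5 v), mul_inv_cancel, one_pow]
  have key : ∑ σ : E₀, Λ a (pr ℓ E₀ a (c * (σ : MulAut V₀) d)) ζ *
      ((-(12 / (ℓ : ℚ) ^ 2) * (zT x₁ x₂ (pr ℓ E₀ a) c d ζ σ : ℚ) : ℚ) : ℂ) ∈ RM M := by
    refine avg_RM hM (N := St E₀ a) (fun σ hσ => hσ.1) p8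
      (fun σ => Λ a (pr ℓ E₀ a (c * σ d)) ζ *
        ((-(12 / (ℓ : ℚ) ^ 2) * (zT x₁ x₂ (pr ℓ E₀ a) c d ζ σ : ℚ) : ℚ) : ℂ)) ?_
    intro σ
    have e1 : ∀ π : St E₀ a, pr ℓ E₀ a (c * ((π : MulAut V₀) * (σ : MulAut V₀)) d) =
        pr ℓ E₀ a (c * (σ : MulAut V₀) d) := by
      intro π
      rw [hP, hP, MulAut.mul_apply, (p3 π π.2 _).1]
    have e2 : ∑ π : St E₀ a, Λ a (pr ℓ E₀ a (c * ((π : MulAut V₀) * (σ : MulAut V₀)) d)) ζ *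
        ((-(12 / (ℓ : ℚ) ^ 2) *
          (zT x₁ x₂ (pr ℓ E₀ a) c d ζ ((π : MulAut V₀) * (σ : MulAut V₀)) : ℚ) : ℚ) : ℂ) =
        Λ a (pr ℓ E₀ a (c * (σ : MulAut V₀) d)) ζ *
        ((-(12 / (ℓ : ℚ) ^ 2) * ((∑ π : St E₀ a,
          zT x₁ x₂ (pr ℓ E₀ a) c d ζ ((π : MulAut V₀) * (σ : MulAut V₀)) : ℤ) : ℚ) : ℚ) : ℂ) := by
      rw [Finset.sum_congr rfl (fun π _ => by rw [e1 π]), ← Finset.mul_sum]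
      congr 1
      push_cast
      rw [Finset.mul_sum]
    rw [e2]
    refine term_RM' hM (hΛ _ (p5 _) _) ?_
    exact coset_dvd h₁ h₂ hx₁ hx₂ hP (St E₀ a) a p5 (fun π hπ v => (p3 π hπ v).1)
      (fun π hπ v hv => hπ.2 v hv) hprod c d ζ hζ σ
  have h3 : ∑ σ : E₀, (tm Λ U x₁ x₂ ℓ E₀ c d σ a ζ -
      Λ a (pr ℓ E₀ a (c * (σ : MulAut V₀) d)) ζ *
      ((-(12 / (ℓ : ℚ) ^ 2) * (zT x₁ x₂ (pr ℓ E₀ a) c d ζ σ : ℚ) : ℚ) : ℂ)) ∈ RM M :=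
    sum_mem fun σ _ => tm_mod hM Λ U x₁ x₂ E₀ c d σ a ζ hU p1 (hΛ _ (p5 _) _)
  rw [Finset.sum_sub_distrib] at h3
  have h4 := (RM M).add_mem h3 key
  rwa [sub_add_cancel] at h4

end core

open Classical in
/-- DVS -/
theorem dvs (prb : PrbStmt) : DvsStmt := by
  intro ℓ _ M _ hM V₀ _ _ E₀ hE U hU ρ₁ ρ₂ x₁ x₂ h₁ h₂ hx₁ hx₂ Λ hΛ c d
  have hℓ : ℓ.Prime := Fact.out
  have : Finite (MulAut V₀) := inferInstance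
  have : Fintype V₀ := Fintype.ofFinite _
  have : Fintype (MulAut V₀) := Fintype.ofFinite _
  have : Fintype (Subgroup V₀) := Fintype.ofFinite _
  have : Fintype E₀ := Fintype.ofFinite _
  have hsum : ∀ (α : Type) [Fintype α] (p : α → Prop) [DecidablePred p] (f : α → ℂ),
      ∑ᶠ x ∈ {x | p x}, f x = ∑ x, if p x then f x else 0 := by
    intro α _ p _ f
    rw [finsum_eq_sum_of_fintype]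
    exact Finset.sum_congr rfl fun x _ => finsum_eq_if
  have hE' : ∀ f : MulAut V₀ → ℂ, ∑ᶠ σ ∈ {σ : MulAut V₀ | σ ∈ E₀}, f σ = ∑ σ : E₀, f σ := by
    intro f
    rw [hsum, ← Finset.sum_filter]
    refine (Finset.sum_subtype _ (fun x => ?_) f)
    rw [Finset.mem_filter]
    exact ⟨fun h => h.2, fun h => ⟨Finset.mem_univ _, h⟩⟩
  have hterm : ∀ σ : MulAut V₀,
    ((∑ᶠ a ∈ {a : Subgroup V₀ | a ∈ RL ℓ E₀ ∧ c * σ d ∉ a}, ∑ᶠ ζ ∈ {ζ : V₀ | ζ ∈ a ∧ ζ ≠ 1},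
      Λ a (pr ℓ E₀ a (c * σ d)) ζ * ((BrF ℓ x₁ x₂ c d (c * σ d) σ ζ -
        cS U c d σ a * BrF ℓ x₁ x₂ c d (pr ℓ E₀ a (c * σ d)) σ ζ : ℚ) : ℂ)) +
    (∑ᶠ a ∈ {a : Subgroup V₀ | a ∈ RL ℓ E₀ ∧ c ∉ a}, ∑ᶠ ζ ∈ {ζ : V₀ | ζ ∈ a ∧ ζ ≠ 1},
      Λ a (pr ℓ E₀ a (c * σ d)) ζ * ((ux U a (σ d) *
        (BrF ℓ x₁ x₂ c d (pr ℓ E₀ a (c * σ d)) σ ζ -
          BrF ℓ x₁ x₂ (pr ℓ E₀ a c) d (pr ℓ E₀ a (c * σ d)) σ ζ) : ℚ) : ℂ)) +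
    ∑ᶠ a ∈ {a : Subgroup V₀ | a ∈ RL ℓ E₀ ∧ σ d ∉ a}, ∑ᶠ ζ ∈ {ζ : V₀ | ζ ∈ a ∧ ζ ≠ 1},
      Λ a (pr ℓ E₀ a (c * σ d)) ζ * ((ux U a c *
        (BrF ℓ x₁ x₂ c d (pr ℓ E₀ a (c * σ d)) σ ζ -
          BrF ℓ x₁ x₂ c (σ⁻¹ (pr ℓ E₀ a (σ d))) (pr ℓ E₀ a (c * σ d)) σ ζ) : ℚ) : ℂ)) =
    ∑ a : Subgroup V₀, ∑ ζ : V₀, if a ∈ RL ℓ E₀ ∧ ζ ∈ a ∧ ζ ≠ 1 then
      tm Λ U x₁ x₂ ℓ E₀ c d σ a ζ else 0 := by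
    intro σ
    rw [hsum, hsum, hsum, ← Finset.sum_add_distrib, ← Finset.sum_add_distrib]
    refine Finset.sum_congr rfl fun a _ => ?_
    by_cases ha : a ∈ RL ℓ E₀
    · have e : ∀ (p : Prop) [Decidable p] (f : V₀ → ℂ),
          (if a ∈ RL ℓ E₀ ∧ p then ∑ᶠ ζ ∈ {ζ : V₀ | ζ ∈ a ∧ ζ ≠ 1}, f ζ else 0) =
          ∑ ζ : V₀, if ζ ∈ a ∧ ζ ≠ 1 then (if p then f ζ else 0) else 0 := by
        intro p _ f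
        rw [hsum]
        by_cases hp : p
        · rw [if_pos ⟨ha, hp⟩]
          exact Finset.sum_congr rfl fun ζ _ => by rw [if_pos hp]
        · rw [if_neg fun h => hp h.2]
          symm
          apply Finset.sum_eq_zero
          intro ζ _
          rw [if_neg hp, ite_self]
      rw [e, e, e, ← Finset.sum_add_distrib, ← Finset.sum_add_distrib]
      refine Finset.sum_congr rfl fun ζ _ => ?_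
      by_cases hζ : ζ ∈ a ∧ ζ ≠ 1
      · rw [if_pos hζ, if_pos hζ, if_pos hζ,
          if_pos (show a ∈ RL ℓ E₀ ∧ ζ ∈ a ∧ ζ ≠ 1 from ⟨ha, hζ⟩)]
        rfl
      · rw [if_neg hζ, if_neg hζ, if_neg hζ,
          if_neg (show ¬ (a ∈ RL ℓ E₀ ∧ ζ ∈ a ∧ ζ ≠ 1) from fun h => hζ h.2)]
        ring
    · rw [if_neg (show ¬ (a ∈ RL ℓ E₀ ∧ c * σ d ∉ a) from fun h => ha h.1),
        if_neg (show ¬ (a ∈ RL ℓ E₀ ∧ c ∉ a) from fun h => ha h.1),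
        if_neg (show ¬ (a ∈ RL ℓ E₀ ∧ σ d ∉ a) from fun h => ha h.1),
        Finset.sum_eq_zero fun ζ _ => if_neg fun h => ha h.1]
      ring
  rw [hE', Finset.sum_congr rfl fun (σ : E₀) _ => hterm σ, Finset.sum_comm]
  refine sum_mem fun a _ => ?_
  rw [Finset.sum_comm]
  refine sum_mem fun ζ _ => ?_
  by_cases h : a ∈ RL ℓ E₀ ∧ ζ ∈ a ∧ ζ ≠ 1
  · rw [Finset.sum_congr rfl fun (σ : E₀) _ => if_pos h]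
    have hne : a ≠ ⊥ := by
      rintro rfl
      have h3 : Nat.card (⊥ : Subgroup V₀) = ℓ := h.1.1
      rw [Subgroup.card_bot] at h3
      exact hℓ.one_lt.ne h3
    exact core prb hM hE h₁ h₂ hx₁ hx₂ c d h.1 (hU a hne) (hΛ a h.1) h.2.1
  · rw [Finset.sum_eq_zero fun (σ : E₀) _ => if_neg h]
    exact (RM M).zero_mem

end Pool.Agent.PP.SE.H1
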